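import Mathlib

/-!
# Balanced tripartite graphs of minimum degree `n + t` with fewer than `4 t³` triangles

`m n t` is the least number of triangles of a 3-partite graph with classes of size `n` and minimum
degree at least `n + t`.  It was asked whether `m n t = 4 t³` for all `t ≥ 1` and `n ≥ 5 t`.
A graph with classes of size `10`, minimum degree `12` and `30 < 32` triangles, found by computer,
shows that this fails for `t = 2`, `n = 10`; its blow-ups show that it fails for every even `t`
and `n = 5 t`, where `m (5 t) t ≤ (15/4) t³`.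
-/

namespace Pool.Agent.Results.MP_e2add3_co.FewerTriangles

/-- The vertex `(k, i)` is the `i`-th vertex of the class `V_k`, `k = 0, 1, 2`, each class having
`n` vertices. -/
abbrev Vx (n : ℕ) := Fin 3 × Fin n

/-- `G` is a graph `G_3(n)`: edges join only vertices of different classes. -/
def IsG3 (n : ℕ) (G : SimpleGraph (Vx n)) : Prop := ∀ u v : Vx n, G.Adj u v → u.1 ≠ v.1

/-- The minimum degree of `G` is at least `d`. -/
def MinDegreeGE (n : ℕ) (G : SimpleGraph (Vx n)) (d : ℕ) : Prop :=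
  ∀ v : Vx n, d ≤ (G.neighborSet v).ncard

/-- `k_3(G)`, the number of triangles of `G`. -/
noncomputable def k3 (n : ℕ) (G : SimpleGraph (Vx n)) : ℕ :=
  {T : Finset (Vx n) | G.IsNClique 3 T}.ncard

/-- `m(n,t)`: the least number of triangles of a `G_3(n)` with minimum degree at least `n + t`. -/
noncomputable def m (n t : ℕ) : ℕ :=
  sInf {x : ℕ | ∃ G : SimpleGraph (Vx n), IsG3 n G ∧ MinDegreeGE n G (n + t) ∧ k3 n G = x}

/-- Neighbours in class 1 of the vertices of class 0, as bit masks. -/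
def M01 (a : Fin 10) : ℕ := ![1015, 1015, 385, 385, 385, 1019, 385, 385, 1015, 1019] a
/-- Neighbours in class 2 of the vertices of class 0, as bit masks. -/
def M02 (a : Fin 10) : ℕ := ![644, 644, 1015, 1007, 1015, 644, 1007, 1015, 644, 644] a
/-- Neighbours in class 2 of the vertices of class 1, as bit masks. -/
def M12 (a : Fin 10) : ℕ := ![24, 379, 1023, 1023, 379, 379, 379, 24, 24, 379] a

/-- Adjacency of the base graph with classes of size 10. -/
def base (u v : Fin 3 × Fin 10) : Bool :=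
  match u.1, v.1 with
  | 0, 1 => (M01 u.2).testBit v.2
  | 1, 0 => (M01 v.2).testBit u.2
  | 0, 2 => (M02 u.2).testBit v.2
  | 2, 0 => (M02 v.2).testBit u.2
  | 1, 2 => (M12 u.2).testBit v.2
  | 2, 1 => (M12 v.2).testBit u.2
  | _, _ => false

lemma base_symm (u v : Fin 3 × Fin 10) : base u v = base v u := by
  obtain ⟨k, a⟩ := u
  obtain ⟨l, b⟩ := v
  fin_cases k <;> fin_cases l <;> rfl

lemma base_ne (u v : Fin 3 × Fin 10) (h : base u v = true) : u.1 ≠ v.1 := by
  obtain ⟨k, a⟩ := u
  obtain ⟨l, b⟩ := v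
  fin_cases k <;> fin_cases l <;> first | (simp [base] at h; done) | (intro h'; simp at h')

/-- The vertex of the base graph of which `v` is a copy. -/
def pr (s : ℕ) (v : Vx (10 * s)) : Fin 3 × Fin 10 := (v.1, (finProdFinEquiv.symm v.2).1)

/-- The `s`-fold blow-up of the base graph. -/
def G (s : ℕ) : SimpleGraph (Vx (10 * s)) where
  Adj u v := base (pr s u) (pr s v) = true
  symm := ⟨fun u v h => by rw [base_symm]; exact h⟩
  loopless := ⟨fun u h => base_ne _ _ h rfl⟩

lemma isG3 (s : ℕ) : IsG3 (10 * s) (G s) := fun _ _ h => base_ne _ _ h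

/-- Neighbours in the base graph. -/
def nb (u : Fin 3 × Fin 10) : Finset (Fin 3 × Fin 10) := Finset.univ.filter fun v => base u v = true

lemma nb_card : ∀ u : Fin 3 × Fin 10, 12 ≤ (nb u).card := by decide +kernel

lemma minDeg (s : ℕ) : MinDegreeGE (10 * s) (G s) (10 * s + 2 * s) := by
  intro v
  let f : (Fin 3 × Fin 10) × Fin s → Vx (10 * s) := fun p => (p.1.1, finProdFinEquiv (p.1.2, p.2))
  have hf : Function.Injective f := by
    rintro ⟨⟨k, a⟩, r⟩ ⟨⟨l, b⟩, q⟩ h
    simp only [f, Prod.mk.injEq, EmbeddingLike.apply_eq_iff_eq] at h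
    obtain ⟨h1, h2, h3⟩ := h
    simp [h1, h2, h3]
  have hsub : (↑((nb (pr s v) ×ˢ (Finset.univ : Finset (Fin s))).image f) : Set (Vx (10 * s))) ⊆
      (G s).neighborSet v := by
    intro w hw
    simp only [Finset.coe_image, Finset.coe_product, Set.mem_image, Set.mem_prod,
      Finset.mem_coe] at hw
    obtain ⟨⟨⟨k, a⟩, r⟩, ⟨h1, -⟩, rfl⟩ := hw
    simp only [nb, Finset.mem_filter, Finset.mem_univ, true_and] at h1
    rw [SimpleGraph.mem_neighborSet]
    change base (pr s v) (pr s (k, finProdFinEquiv (a, r))) = true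
    simpa [pr] using h1
  have hcard := Set.ncard_le_ncard hsub (Set.toFinite _)
  rw [Set.ncard_coe_finset, Finset.card_image_of_injective _ hf, Finset.card_product,
    Finset.card_univ, Fintype.card_fin] at hcard
  have h12 := nb_card (pr s v)
  calc 10 * s + 2 * s = 12 * s := by ring
    _ ≤ (nb (pr s v)).card * s := Nat.mul_le_mul_right _ h12
    _ ≤ _ := hcard

/-- The triangles of the base graph as triples. -/
def T0 : Finset (Fin 10 × Fin 10 × Fin 10) := Finset.univ.filter fun x =>
  base (0, x.1) (1, x.2.1) = true ∧ base (0, x.1) (2, x.2.2) = true ∧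
    base (1, x.2.1) (2, x.2.2) = true

lemma T0_card : T0.card = 30 := by decide +kernel

/-- The triangles of the blow-up as triples. -/
def TT (s : ℕ) : Finset (Fin (10 * s) × Fin (10 * s) × Fin (10 * s)) := Finset.univ.filter fun x =>
  base (pr s (0, x.1)) (pr s (1, x.2.1)) = true ∧ base (pr s (0, x.1)) (pr s (2, x.2.2)) = true ∧
    base (pr s (1, x.2.1)) (pr s (2, x.2.2)) = true

/-- First coordinates. -/
def q (s : ℕ) (x : Fin (10 * s) × Fin (10 * s) × Fin (10 * s)) : Fin 10 × Fin 10 × Fin 10 :=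
  ((finProdFinEquiv.symm x.1).1, (finProdFinEquiv.symm x.2.1).1, (finProdFinEquiv.symm x.2.2).1)

/-- Second coordinates. -/
def q' (s : ℕ) (x : Fin (10 * s) × Fin (10 * s) × Fin (10 * s)) : Fin s × Fin s × Fin s :=
  ((finProdFinEquiv.symm x.1).2, (finProdFinEquiv.symm x.2.1).2, (finProdFinEquiv.symm x.2.2).2)

lemma qq_inj (s : ℕ) (x y : Fin (10 * s) × Fin (10 * s) × Fin (10 * s)) (h : q s x = q s y)
    (h' : q' s x = q' s y) : x = y := by
  obtain ⟨a, b, c⟩ := x
  obtain ⟨a', b', c'⟩ := y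
  simp only [q, q', Prod.mk.injEq] at h h'
  have e1 : a = a' := finProdFinEquiv.symm.injective (Prod.ext h.1 h'.1)
  have e2 : b = b' := finProdFinEquiv.symm.injective (Prod.ext h.2.1 h'.2.1)
  have e3 : c = c' := finProdFinEquiv.symm.injective (Prod.ext h.2.2 h'.2.2)
  rw [e1, e2, e3]

lemma TT_card (s : ℕ) : (TT s).card ≤ 30 * s ^ 3 := by
  have h1 : (TT s).card ≤ s ^ 3 * ((TT s).image (q s)).card := by
    refine Finset.card_le_mul_card_image _ _ fun a _ => ?_
    have hinj : Set.InjOn (q' s) (((TT s).filter fun x => q s x = a) : Finset _) := by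
      intro x hx y hy hxy
      simp only [Finset.coe_filter, Set.mem_ofPred_eq] at hx hy
      exact qq_inj s x y (hx.2.trans hy.2.symm) hxy
    have := Finset.card_le_card_of_injOn (t := (Finset.univ : Finset (Fin s × Fin s × Fin s)))
      (q' s) (fun x _ => Finset.mem_coe.2 (Finset.mem_univ _)) hinj
    refine this.trans (le_of_eq ?_)
    simp only [Finset.card_univ, Fintype.card_prod, Fintype.card_fin]
    ring
  have h2 : ((TT s).image (q s)).card ≤ 30 := by
    rw [← T0_card]
    refine Finset.card_le_card fun y hy => ?_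
    obtain ⟨x, hx, rfl⟩ := Finset.mem_image.1 hy
    simp only [TT, Finset.mem_filter, Finset.mem_univ, true_and] at hx
    simp only [T0, Finset.mem_filter, Finset.mem_univ, true_and]
    exact hx
  calc (TT s).card ≤ s ^ 3 * ((TT s).image (q s)).card := h1
    _ ≤ s ^ 3 * 30 := Nat.mul_le_mul_left _ h2
    _ = 30 * s ^ 3 := by ring

/-- The triangle with the given vertices. -/
def tri (n : ℕ) (x : Fin n × Fin n × Fin n) : Finset (Vx n) := {(0, x.1), (1, x.2.1), (2, x.2.2)}

lemma clique_sub (s : ℕ) : {T : Finset (Vx (10 * s)) | (G s).IsNClique 3 T} ⊆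
    ↑((TT s).image (tri (10 * s))) := by
  intro T hT
  have hT' : (G s).IsNClique 3 T := hT
  have hinj : Set.InjOn (fun v : Vx (10 * s) => v.1) (T : Set (Vx (10 * s))) := by
    intro u hu v hv huv
    by_contra hne
    exact isG3 s u v (hT'.isClique hu hv hne) huv
  have himg : T.image (fun v : Vx (10 * s) => v.1) = Finset.univ := by
    apply Finset.eq_univ_of_card
    rw [Finset.card_image_of_injOn hinj, hT'.card_eq, Fintype.card_fin]
  have hex : ∀ k : Fin 3, ∃ i : Fin (10 * s), (k, i) ∈ T := by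
    intro k
    have : k ∈ T.image (fun v : Vx (10 * s) => v.1) := by rw [himg]; exact Finset.mem_univ _
    obtain ⟨⟨k', i⟩, hv, rfl⟩ := Finset.mem_image.1 this
    exact ⟨i, hv⟩
  obtain ⟨a, ha⟩ := hex 0
  obtain ⟨b, hb⟩ := hex 1
  obtain ⟨c, hc⟩ := hex 2
  have hadj : ∀ {u v : Vx (10 * s)}, u ∈ T → v ∈ T → u.1 ≠ v.1 → (G s).Adj u v := by
    intro u v hu hv hne
    exact hT'.isClique hu hv fun h => hne (by rw [h])
  refine Finset.mem_coe.2 (Finset.mem_image.2 ⟨(a, b, c), ?_, ?_⟩)
  · simp only [TT, Finset.mem_filter, Finset.mem_univ, true_and]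
    exact ⟨hadj ha hb (by simp), hadj ha hc (by simp), hadj hb hc (by simp)⟩
  · symm
    have hsub : tri (10 * s) (a, b, c) ⊆ T := by
      intro v hv
      simp only [tri, Finset.mem_insert, Finset.mem_singleton] at hv
      rcases hv with rfl | rfl | rfl
      · exact ha
      · exact hb
      · exact hc
    symm
    refine Finset.eq_of_subset_of_card_le hsub ?_
    rw [hT'.card_eq]
    have : (tri (10 * s) (a, b, c)).card = 3 := by
      rw [tri, Finset.card_insert_of_notMem, Finset.card_insert_of_notMem,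
        Finset.card_singleton]
      · simp
      · simp
    rw [this]

lemma k3_le (s : ℕ) : k3 (10 * s) (G s) ≤ 30 * s ^ 3 := by
  have h := Set.ncard_le_ncard (clique_sub s) (Finset.finite_toSet _)
  rw [Set.ncard_coe_finset] at h
  exact (h.trans Finset.card_image_le).trans (TT_card s)

lemma m_le (s : ℕ) : m (10 * s) (2 * s) ≤ 30 * s ^ 3 := by
  have h : m (10 * s) (2 * s) ≤ k3 (10 * s) (G s) :=
    Nat.sInf_le ⟨G s, isG3 s, minDeg s, rfl⟩
  exact h.trans (k3_le s)

/-- The equality `m(n,t) = 4 t³` (all `t ≥ 1`, `n ≥ 5 t`) is false: it fails for `t = 2`, `n = 10`,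
where some `G_3(10)` with minimum degree at least `12` has at most `30` triangles, and it fails for
every even `t` with `n = 5 t`, where `4 m(5t,t) ≤ 15 t³`. -/
theorem result :
    (¬ ∀ t n : ℕ, 1 ≤ t → 5 * t ≤ n → m n t = 4 * t ^ 3) ∧
    (∃ H : SimpleGraph (Vx 10), IsG3 10 H ∧ MinDegreeGE 10 H 12 ∧ k3 10 H ≤ 30) ∧
    (∀ t : ℕ, 1 ≤ t → Even t →
      (∃ H : SimpleGraph (Vx (5 * t)), IsG3 (5 * t) H ∧ MinDegreeGE (5 * t) H (5 * t + t) ∧
        k3 (5 * t) H < 4 * t ^ 3) ∧
      4 * m (5 * t) t ≤ 15 * t ^ 3 ∧ m (5 * t) t < 4 * t ^ 3) := by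
  have hev : ∀ s : ℕ, 1 ≤ s → 30 * s ^ 3 < 4 * (2 * s) ^ 3 := by
    intro s hs
    have : 0 < s ^ 3 := by positivity
    nlinarith [this]
  refine ⟨?_, ?_, ?_⟩
  · intro h
    have h1 := h 2 10 (by norm_num) (by norm_num)
    have h2 := m_le 1
    norm_num at h1 h2
    omega
  · exact ⟨G 1, isG3 1, minDeg 1, k3_le 1⟩
  · intro t ht hev'
    obtain ⟨s, hs⟩ := hev'
    obtain rfl : t = 2 * s := by omega
    have hs1 : 1 ≤ s := by omega
    have h10 : 5 * (2 * s) = 10 * s := by ring
    rw [h10]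
    refine ⟨⟨G s, isG3 s, minDeg s, (k3_le s).trans_lt (hev s hs1)⟩, ?_, ?_⟩
    · have := m_le s
      nlinarith [this]
    · exact (m_le s).trans_lt (hev s hs1)

end Pool.Agent.Results.MP_e2add3_co.FewerTriangles
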